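import Pool.Agent.Helper35_TF.Kit

/-! Squad TF, row MO1: moves, the pair level. -/

set_option autoImplicit false

namespace Pool.Agent.TF.H35

/-- a face with two `p`-edges (same `b_k, b_j`) and two `r`-edges (same `a_k, b_j`) -/
theorem face {G : Type} [AddCommGroup G] {ak1 ak2 bk1 bk2 aj1 aj2 aj3 aj4 bj x y x' y' : G}
    (hx : ak1 - bk1 = x) (hy : ak2 - bk1 = y) (hx' : ak1 - bk2 = x') (hy' : ak2 - bk2 = y')
    (jx : aj1 - bj = x) (jy : aj2 - bj = y) (jx' : aj3 - bj = x') (jy' : aj4 - bj = y') :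
    aj4 = aj2 + aj3 - aj1 := by
  have h1 : aj1 = x + bj := by rw [← jx]; abel
  have h2 : aj2 = y + bj := by rw [← jy]; abel
  have h3 : aj3 = x' + bj := by rw [← jx']; abel
  have h4 : aj4 = y' + bj := by rw [← jy']; abel
  rw [h1, h2, h3, h4, ← hx, ← hy, ← hx', ← hy']
  abel

theorem mo1 (L : Lib) (hU : UppStmt) (hP : Pr2Stmt) : Mo1Stmt := by
  intro G _ _ _ n F l e Ω _ P x y h k1 k2 hB hR hH
  have e0 := hB.e0
  -- the support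
  have sxx : ∀ ω, P.p ω ≠ 0 → x ω ∈ F.D (k1 ω) ∧ x ω ∈ F.D (k2 ω) ∧ y ω ∈ F.D (k1 ω) ∧
      y ω ∈ F.D (k2 ω) ∧ F.b (k1 ω) (y ω) = F.b (k1 ω) (x ω) ∧
      F.b (k2 ω) (y ω) = F.b (k2 ω) (x ω) := by
    intro ω hω
    obtain ⟨⟨_, _, a1, a2, _, _, a3, _, _⟩, ⟨_, _, b1, b2, _, _, b3, _, _⟩⟩ := hR ω hω
    exact ⟨a1, b1, a2, b2, a3, b3⟩
  -- `(x,y,k1,k2)`
  have q1 : 9 * l / 4 - 2 * e ≤ P.H (fun ω => ((x ω, y ω), (k1 ω, k2 ω))) := by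
    have h1 := hadd L (P := P) (a := fun ω => ((x ω, y ω), (k1 ω, k2 ω))) (b := h)
      (j := fun ω => ((x ω, y ω, h ω), (k1 ω, k2 ω)))
      (fun ω ω' _ _ e => congrArg (fun t : ((G × G) × (Fin n × Fin n)) × Fin n =>
        ((t.1.1.1, t.1.1.2, t.2), t.1.2)) e)
    have h2 := h_cls L (P := P) hB h
    linarith
  have ux := hU G n F l e Ω P x y k1 k2 hB (fun ω hω => by
    obtain ⟨a, b, c, d, e1, f⟩ := sxx ω hω
    exact ⟨a, b, c, d, e1, f⟩)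
  have uy := hU G n F l e Ω P y x k1 k2 hB (fun ω hω => by
    obtain ⟨a, b, c, d, e1, f⟩ := sxx ω hω
    exact ⟨c, d, a, b, e1.symm, f.symm⟩)
  have q2 : P.H (fun ω => ((y ω, x ω), (k1 ω, k2 ω))) = P.H (fun ω => ((x ω, y ω), (k1 ω, k2 ω))) :=
    hcongr L (fun ω ω' _ _ e => congrArg (fun t : (G × G) × (Fin n × Fin n) =>
      ((t.1.2, t.1.1), t.2)) e) (fun ω ω' _ _ e => congrArg (fun t : (G × G) × (Fin n × Fin n) =>
      ((t.1.2, t.1.1), t.2)) e)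
  have rx := hP G n F l (7 * e) Ω P x k1 k2 (base_mono hB (by linarith))
    (fun ω hω => ⟨(sxx ω hω).1, (sxx ω hω).2.1⟩) (by linarith [ux.1])
  have ry := hP G n F l (7 * e) Ω P y k1 k2 (base_mono hB (by linarith))
    (fun ω hω => ⟨(sxx ω hω).2.2.1, (sxx ω hω).2.2.2.1⟩) (by linarith [uy.1])
  -- the class variable
  have hc : P.H (fun ω => (k1 ω, k2 ω, h ω)) ≤ 3 * l / 2 + 3 * e := by
    have h1 := hadd L (P := P) (a := k1) (b := fun ω => (k2 ω, h ω))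
      (j := fun ω => (k1 ω, k2 ω, h ω)) (fun ω ω' _ _ e => e)
    have h2 := hadd L (P := P) (a := k2) (b := h)
      (j := fun ω => (k2 ω, h ω)) (fun ω ω' _ _ e => e)
    have h3 := h_cls L (P := P) hB h
    have h4 := h_cls L (P := P) hB k1
    have h5 := h_cls L (P := P) hB k2
    linarith
  have hF1 : P.H (fun ω => ((x ω, y ω), (k1 ω, k2 ω, h ω))) =
      P.H (fun ω => ((x ω, y ω, h ω), (k1 ω, k2 ω))) :=
    hcongr L (fun ω ω' _ _ e => congrArg (fun t : (G × G) × (Fin n × Fin n × Fin n) =>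
      ((t.1.1, t.1.2, t.2.2.2), (t.2.1, t.2.2.1))) e)
      (fun ω ω' _ _ e => congrArg (fun t : (G × G × Fin n) × (Fin n × Fin n) =>
      ((t.1.1, t.1.2.1), (t.2.1, t.2.2, t.1.2.2))) e)
  have hlo : 11 * l / 4 - e ≤ P.H (fun ω => ((x ω, y ω), (k1 ω, k2 ω, h ω))) := by
    rw [hF1]; exact hH
  -- upper bound of `H(x,y | c)`
  have hup : P.H (fun ω => ((x ω, y ω), (k1 ω, k2 ω, h ω))) ≤
      P.H (fun ω => (k1 ω, k2 ω, h ω)) + 5 * l / 4 + 140 * e := by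
    have h1 := ux.2
    have h2 := rx.cnt false false
    unfold Law.C at h1
    have h3 := smod L (P := P) (a := fun ω => (y ω, (x ω, (k1 ω, k2 ω))))
      (b := fun ω => (x ω, (k1 ω, k2 ω, h ω))) (m := fun ω => (x ω, (k1 ω, k2 ω)))
      (j := fun ω => ((x ω, y ω), (k1 ω, k2 ω, h ω)))
      (fun ω ω' _ _ e => congrArg Prod.snd e)
      (fun ω ω' _ _ e => congrArg (fun t : G × (Fin n × Fin n × Fin n) => (t.1, (t.2.1, t.2.2.1))) e)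
      (fun ω ω' _ _ e => congrArg (fun t : (G × (G × (Fin n × Fin n))) ×
        (G × (Fin n × Fin n × Fin n)) => ((t.2.1, t.1.1), t.2.2)) e)
    have h4 := hadd L (P := P) (a := x) (b := fun ω => (k1 ω, k2 ω, h ω))
      (j := fun ω => (x ω, (k1 ω, k2 ω, h ω))) (fun ω ω' _ _ e => e)
    have h5 := h_pt L (P := P) hB x
    linarith
  -- first doubling
  obtain ⟨P2, f21, f22, f23, f24⟩ := dbl L P
    (fun ω => ((F.a (k1 ω) (x ω), F.b (k2 ω) (x ω), F.a (k1 ω) (y ω)), (k1 ω, k2 ω, h ω)))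
  have v1 : P.H (fun ω => ((F.a (k1 ω) (x ω), F.b (k2 ω) (x ω), F.a (k1 ω) (y ω)),
      (k1 ω, k2 ω, h ω))) ≤ P.H (fun ω => (k1 ω, k2 ω, h ω)) + l + 280 * e := by
    have h1 := rx.pair true false
    have h2 := ry.kj true false
    unfold Law.C at h1 h2
    simp only [Fam.lab, if_true, Bool.false_eq_true, if_false] at h1 h2
    -- `(a1,b2)(x), c`
    have h3 := smod L (P := P) (a := fun ω => ((F.a (k1 ω) (x ω), F.b (k2 ω) (x ω)), (k1 ω, k2 ω)))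
      (b := fun ω => (k1 ω, k2 ω, h ω)) (m := fun ω => (k1 ω, k2 ω))
      (j := fun ω => ((F.a (k1 ω) (x ω), F.b (k2 ω) (x ω)), (k1 ω, k2 ω, h ω)))
      (fun ω ω' _ _ e => congrArg Prod.snd e)
      (fun ω ω' _ _ e => congrArg (fun t : Fin n × Fin n × Fin n => (t.1, t.2.1)) e)
      (fun ω ω' _ _ e => congrArg (fun t : ((G × G) × (Fin n × Fin n)) ×
        (Fin n × Fin n × Fin n) => (t.1.1, t.2)) e)
    have h4 := smod L (P := P)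
      (a := fun ω => ((F.a (k1 ω) (x ω), F.b (k2 ω) (x ω)), (k1 ω, k2 ω, h ω)))
      (b := fun ω => (F.a (k1 ω) (y ω), (F.b (k2 ω) (y ω), (k1 ω, k2 ω))))
      (m := fun ω => (F.b (k2 ω) (y ω), (k1 ω, k2 ω)))
      (j := fun ω => ((F.a (k1 ω) (x ω), F.b (k2 ω) (x ω), F.a (k1 ω) (y ω)), (k1 ω, k2 ω, h ω)))
      (fun ω ω' w w' e => by
        have e1 := congrArg (fun t : (G × G) × (Fin n × Fin n × Fin n) =>
          (t.1.2, (t.2.1, t.2.2.1))) e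
        change (F.b (k2 ω) (y ω), (k1 ω, k2 ω)) = (F.b (k2 ω') (y ω'), (k1 ω', k2 ω'))
        rw [(sxx ω w).2.2.2.2.2, (sxx ω' w').2.2.2.2.2]
        exact e1)
      (fun ω ω' _ _ e => congrArg Prod.snd e)
      (fun ω ω' _ _ e => congrArg (fun t : ((G × G) × (Fin n × Fin n × Fin n)) ×
        (G × (G × (Fin n × Fin n))) => ((t.1.1.1, t.1.1.2, t.2.1), t.1.2)) e)
    linarith
  -- second doubling, over the `(a1,a2)`-labels of the four points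
  obtain ⟨P3, f31, f32, f33, f34⟩ := dbl L P2
    (fun ω => ((F.a (k1 ω.1) (x ω.1), F.a (k2 ω.1) (x ω.1), F.a (k1 ω.1) (y ω.1),
      F.a (k2 ω.1) (y ω.1)), (F.a (k2 ω.1) (x ω.2), (k1 ω.1, k2 ω.1, h ω.1))))
  -- the support of `P2`
  have s2 : ∀ ω, P2.p ω ≠ 0 → P.p ω.1 ≠ 0 ∧ P.p ω.2 ≠ 0 ∧
      F.a (k1 ω.1) (x ω.1) = F.a (k1 ω.2) (x ω.2) ∧ F.b (k2 ω.1) (x ω.1) = F.b (k2 ω.2) (x ω.2) ∧
      F.a (k1 ω.1) (y ω.1) = F.a (k1 ω.2) (y ω.2) ∧ k1 ω.1 = k1 ω.2 ∧ k2 ω.1 = k2 ω.2 ∧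
      h ω.1 = h ω.2 := by
    intro ω hω
    obtain ⟨a, b, c⟩ := f23 ω hω
    simp only [Prod.mk.injEq] at c
    obtain ⟨⟨c1, c2, c3⟩, c4, c5, c6⟩ := c
    exact ⟨a, b, c1, c2, c3, c4, c5, c6⟩
  have s3 : ∀ ω, P3.p ω ≠ 0 → P2.p ω.1 ≠ 0 ∧ P2.p ω.2 ≠ 0 ∧
      F.a (k1 ω.1.1) (x ω.1.1) = F.a (k1 ω.2.1) (x ω.2.1) ∧
      F.a (k2 ω.1.1) (x ω.1.1) = F.a (k2 ω.2.1) (x ω.2.1) ∧
      F.a (k1 ω.1.1) (y ω.1.1) = F.a (k1 ω.2.1) (y ω.2.1) ∧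
      F.a (k2 ω.1.1) (y ω.1.1) = F.a (k2 ω.2.1) (y ω.2.1) ∧
      F.a (k2 ω.1.1) (x ω.1.2) = F.a (k2 ω.2.1) (x ω.2.2) ∧ k1 ω.1.1 = k1 ω.2.1 ∧
      k2 ω.1.1 = k2 ω.2.1 ∧ h ω.1.1 = h ω.2.1 := by
    intro ω hω
    obtain ⟨a, b, c⟩ := f33 ω hω
    simp only [Prod.mk.injEq] at c
    obtain ⟨⟨c1, c2, c3, c4⟩, c5, c6, c7, c8⟩ := c
    exact ⟨a, b, c1, c2, c3, c4, c5, c6, c7, c8⟩
  -- the entropy of the square
  have g2 := f24 (G × G) (fun ω => (x ω, y ω))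
  have g3 := f34 ((G × G) × (G × G)) (fun ω => ((x ω.1, y ω.1), (x ω.2, y ω.2)))
  have d1 : P.H (fun ω => ((x ω, y ω), ((F.a (k1 ω) (x ω), F.b (k2 ω) (x ω), F.a (k1 ω) (y ω)),
      (k1 ω, k2 ω, h ω)))) = P.H (fun ω => ((x ω, y ω), (k1 ω, k2 ω, h ω))) :=
    hcongr L (fun ω ω' _ _ e => congrArg (fun t : (G × G) × ((G × G × G) ×
      (Fin n × Fin n × Fin n)) => (t.1, t.2.2)) e)
      (fun ω ω' _ _ e => congrArg (fun t : (G × G) × (Fin n × Fin n × Fin n) =>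
      (t.1, ((F.a t.2.1 t.1.1, F.b t.2.2.1 t.1.1, F.a t.2.1 t.1.2), t.2))) e)
  rw [d1] at g2
  -- the four points with their classes
  have d2 : P2.H (fun ω => (((x ω.1, y ω.1), (x ω.2, y ω.2)),
      ((F.a (k1 ω.1) (x ω.1), F.b (k2 ω.1) (x ω.1), F.a (k1 ω.1) (y ω.1)),
      (k1 ω.1, k2 ω.1, h ω.1)))) ≤
      P2.H (fun ω => (((x ω.1, y ω.1), (x ω.2, y ω.2)),
      ((F.a (k1 ω.1) (x ω.1), F.a (k2 ω.1) (x ω.1), F.a (k1 ω.1) (y ω.1),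
      F.a (k2 ω.1) (y ω.1)), (F.a (k2 ω.1) (x ω.2), (k1 ω.1, k2 ω.1, h ω.1))))) :=
    hle L (fun ω ω' _ _ e => congrArg (fun t : ((G × G) × (G × G)) × ((G × G × G × G) × (G ×
      (Fin n × Fin n × Fin n))) => (t.1, ((F.a t.2.2.2.1 t.1.1.1, F.b t.2.2.2.2.1 t.1.1.1,
      F.a t.2.2.2.1 t.1.1.2), t.2.2.2))) e)
  -- transfer of entropies from `P2` to `P`
  have tr1 : ∀ (A : Type) (f : Ω → A), P2.H (fun ω => f ω.1) = P.H f := fun A f =>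
    L.sam.2.1 _ _ _ _ _ _ _ (L.sam.1 _ _ _ _ _ _ _ _ f f21)
  have tr2 : ∀ (A : Type) (f : Ω → A), P2.H (fun ω => f ω.2) = P.H f := fun A f =>
    L.sam.2.1 _ _ _ _ _ _ _ (L.sam.1 _ _ _ _ _ _ _ _ f f22)
  have tr3 : ∀ (A : Type) (f : Ω × Ω → A), P3.H (fun ω => f ω.1) = P2.H f := fun A f =>
    L.sam.2.1 _ _ _ _ _ _ _ (L.sam.1 _ _ _ _ _ _ _ _ f f31)
  have tr4 : ∀ (A : Type) (f : Ω × Ω → A), P3.H (fun ω => f ω.2) = P2.H f := fun A f =>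
    L.sam.2.1 _ _ _ _ _ _ _ (L.sam.1 _ _ _ _ _ _ _ _ f f32)
  -- the label entropy of the second doubling
  have v2 : P2.H (fun ω => ((F.a (k1 ω.1) (x ω.1), F.a (k2 ω.1) (x ω.1), F.a (k1 ω.1) (y ω.1),
      F.a (k2 ω.1) (y ω.1)), (F.a (k2 ω.1) (x ω.2), (k1 ω.1, k2 ω.1, h ω.1)))) ≤
      P.H (fun ω => (k1 ω, k2 ω, h ω)) + 5 * l / 4 + 420 * e := by
    have h1 := rx.pair true true
    have h2 := ry.wpair true true
    have h3 := rx.jk true true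
    unfold Law.C at h1 h2 h3
    simp only [Fam.lab, Fam.w, if_true, Bool.xor_self, Bool.false_eq_true, if_false] at h1 h2 h3
    have h4 := smod L (P := P) (a := fun ω => ((F.a (k1 ω) (x ω), F.a (k2 ω) (x ω)), (k1 ω, k2 ω)))
      (b := fun ω => (k1 ω, k2 ω, h ω)) (m := fun ω => (k1 ω, k2 ω))
      (j := fun ω => ((F.a (k1 ω) (x ω), F.a (k2 ω) (x ω)), (k1 ω, k2 ω, h ω)))
      (fun ω ω' _ _ e => congrArg Prod.snd e)
      (fun ω ω' _ _ e => congrArg (fun t : Fin n × Fin n × Fin n => (t.1, t.2.1)) e)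
      (fun ω ω' _ _ e => congrArg (fun t : ((G × G) × (Fin n × Fin n)) ×
        (Fin n × Fin n × Fin n) => (t.1.1, t.2)) e)
    have h5 := smod L (P := P)
      (a := fun ω => ((F.a (k1 ω) (x ω), F.a (k2 ω) (x ω)), (k1 ω, k2 ω, h ω)))
      (b := fun ω => ((F.a (k1 ω) (y ω), F.a (k2 ω) (y ω)),
        (F.a (k1 ω) (y ω) - F.a (k2 ω) (y ω), (k1 ω, k2 ω))))
      (m := fun ω => (F.a (k1 ω) (y ω) - F.a (k2 ω) (y ω), (k1 ω, k2 ω)))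
      (j := fun ω => ((F.a (k1 ω) (x ω), F.a (k2 ω) (x ω), F.a (k1 ω) (y ω), F.a (k2 ω) (y ω)),
        (k1 ω, k2 ω, h ω)))
      (fun ω ω' w w' e => by
        have e1 := congrArg (fun t : (G × G) × (Fin n × Fin n × Fin n) =>
          (t.1.1 - t.1.2, (t.2.1, t.2.2.1))) e
        -- `a1(y) - a2(y) = a1(x) - a2(x)`
        have key : ∀ ω, P.p ω ≠ 0 → F.a (k1 ω) (y ω) - F.a (k2 ω) (y ω) =
            F.a (k1 ω) (x ω) - F.a (k2 ω) (x ω) := by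
          intro ω w
          obtain ⟨a1, a2, a3, a4, a5, a6⟩ := sxx ω w
          have k1' := F.sub _ _ a1
          have k2' := F.sub _ _ a2
          have k3' := F.sub _ _ a3
          have k4' := F.sub _ _ a4
          rw [a5] at k3'
          rw [a6] at k4'
          have r1 : F.a (k1 ω) (y ω) = y ω + F.b (k1 ω) (x ω) := eq_add_of_sub_eq k3'
          have r2 : F.a (k2 ω) (y ω) = y ω + F.b (k2 ω) (x ω) := eq_add_of_sub_eq k4'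
          have r3 : F.a (k1 ω) (x ω) = x ω + F.b (k1 ω) (x ω) := eq_add_of_sub_eq k1'
          have r4 : F.a (k2 ω) (x ω) = x ω + F.b (k2 ω) (x ω) := eq_add_of_sub_eq k2'
          rw [r1, r2, r3, r4]
          abel
        change (F.a (k1 ω) (y ω) - F.a (k2 ω) (y ω), (k1 ω, k2 ω)) =
          (F.a (k1 ω') (y ω') - F.a (k2 ω') (y ω'), (k1 ω', k2 ω'))
        rw [key ω w, key ω' w']
        exact e1)
      (fun ω ω' _ _ e => congrArg Prod.snd e)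
      (fun ω ω' _ _ e => congrArg (fun t : ((G × G) × (Fin n × Fin n × Fin n)) ×
        ((G × G) × (G × (Fin n × Fin n))) => ((t.1.1.1, t.1.1.2, t.2.1.1, t.2.1.2), t.1.2)) e)
    -- `a2(x')` given `a1(x') = a1(x)`
    have h6 := smod L (P := P2)
      (a := fun ω => ((F.a (k1 ω.1) (x ω.1), F.a (k2 ω.1) (x ω.1), F.a (k1 ω.1) (y ω.1),
        F.a (k2 ω.1) (y ω.1)), (k1 ω.1, k2 ω.1, h ω.1)))
      (b := fun ω => (F.a (k2 ω.2) (x ω.2), (F.a (k1 ω.2) (x ω.2), (k1 ω.2, k2 ω.2))))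
      (m := fun ω => (F.a (k1 ω.2) (x ω.2), (k1 ω.2, k2 ω.2)))
      (j := fun ω => ((F.a (k1 ω.1) (x ω.1), F.a (k2 ω.1) (x ω.1), F.a (k1 ω.1) (y ω.1),
      F.a (k2 ω.1) (y ω.1)), (F.a (k2 ω.1) (x ω.2), (k1 ω.1, k2 ω.1, h ω.1))))
      (fun ω ω' w w' e => by
        obtain ⟨-, -, c1, -, -, c4, c5, -⟩ := s2 ω w
        obtain ⟨-, -, c1', -, -, c4', c5', -⟩ := s2 ω' w'
        have e1 := congrArg (fun t : (G × G × G × G) × (Fin n × Fin n × Fin n) =>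
          (t.1.1, (t.2.1, t.2.2.1))) e
        change (F.a (k1 ω.2) (x ω.2), (k1 ω.2, k2 ω.2)) = (F.a (k1 ω'.2) (x ω'.2), (k1 ω'.2, k2 ω'.2))
        rw [← c1, ← c1', ← c4, ← c4', ← c5, ← c5']
        exact e1)
      (fun ω ω' _ _ e => congrArg Prod.snd e)
      (fun ω ω' w w' e => by
        obtain ⟨-, -, c1, -, -, c4, c5, -⟩ := s2 ω w
        obtain ⟨-, -, c1', -, -, c4', c5', -⟩ := s2 ω' w'
        have e1 := congrArg (fun t : ((G × G × G × G) × (Fin n × Fin n × Fin n)) ×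
          (G × (G × (Fin n × Fin n))) => (t.1.1, (t.2.1, t.1.2))) e
        change ((F.a (k1 ω.1) (x ω.1), F.a (k2 ω.1) (x ω.1), F.a (k1 ω.1) (y ω.1),
          F.a (k2 ω.1) (y ω.1)), (F.a (k2 ω.1) (x ω.2), (k1 ω.1, k2 ω.1, h ω.1))) =
          ((F.a (k1 ω'.1) (x ω'.1), F.a (k2 ω'.1) (x ω'.1), F.a (k1 ω'.1) (y ω'.1),
          F.a (k2 ω'.1) (y ω'.1)), (F.a (k2 ω'.1) (x ω'.2), (k1 ω'.1, k2 ω'.1, h ω'.1)))
        rw [show F.a (k2 ω.1) (x ω.2) = F.a (k2 ω.2) (x ω.2) by rw [c5],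
          show F.a (k2 ω'.1) (x ω'.2) = F.a (k2 ω'.2) (x ω'.2) by rw [c5']]
        exact e1)
    have t1 := tr1 _ (fun ω => ((F.a (k1 ω) (x ω), F.a (k2 ω) (x ω), F.a (k1 ω) (y ω),
      F.a (k2 ω) (y ω)), (k1 ω, k2 ω, h ω)))
    have t2 := tr2 _ (fun ω => (F.a (k2 ω) (x ω), (F.a (k1 ω) (x ω), (k1 ω, k2 ω))))
    have t3 := tr2 _ (fun ω => (F.a (k1 ω) (x ω), (k1 ω, k2 ω)))
    linarith
  -- the square is a function of `(x,y)` and of the opposite corners `(x_rs, y_rs)`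
  have w1 := smod L (P := P3)
    (a := fun ω => ((x ω.1.1, y ω.1.1), (k1 ω.1.1, k2 ω.1.1, h ω.1.1)))
    (b := fun ω => ((x ω.2.2, y ω.2.2), (k1 ω.2.2, k2 ω.2.2, h ω.2.2)))
    (m := fun ω => ((k1 ω.1.1, k2 ω.1.1, h ω.1.1), (F.a (k1 ω.1.1) (x ω.1.1),
      F.a (k1 ω.1.1) (y ω.1.1))))
    (j := fun ω => ((((x ω.1.1, y ω.1.1), (x ω.1.2, y ω.1.2)),
      ((x ω.2.1, y ω.2.1), (x ω.2.2, y ω.2.2))),
      ((F.a (k1 ω.1.1) (x ω.1.1), F.a (k2 ω.1.1) (x ω.1.1), F.a (k1 ω.1.1) (y ω.1.1),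
      F.a (k2 ω.1.1) (y ω.1.1)), (F.a (k2 ω.1.1) (x ω.1.2), (k1 ω.1.1, k2 ω.1.1, h ω.1.1)))))
    (fun ω ω' _ _ e => congrArg (fun t : (G × G) × (Fin n × Fin n × Fin n) =>
      (t.2, (F.a t.2.1 t.1.1, F.a t.2.1 t.1.2))) e)
    (fun ω ω' w w' e => by
      have main : ∀ ω, P3.p ω ≠ 0 → ((k1 ω.1.1, k2 ω.1.1, h ω.1.1), (F.a (k1 ω.1.1) (x ω.1.1),
          F.a (k1 ω.1.1) (y ω.1.1))) = ((k1 ω.2.2, k2 ω.2.2, h ω.2.2), (F.a (k1 ω.2.2) (x ω.2.2),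
          F.a (k1 ω.2.2) (y ω.2.2))) := by
        intro ω w
        obtain ⟨p1, p2, c1, c2, c3, c4, c5, c6, c7, c8⟩ := s3 ω w
        obtain ⟨-, -, d1, d2, d3, d4, d5, d6⟩ := s2 ω.2 p2
        simp only [Prod.mk.injEq]
        exact ⟨⟨c6.trans d4, c7.trans d5, c8.trans d6⟩, c1.trans d1, c3.trans d3⟩
      change ((k1 ω.1.1, k2 ω.1.1, h ω.1.1), (F.a (k1 ω.1.1) (x ω.1.1),
          F.a (k1 ω.1.1) (y ω.1.1))) = ((k1 ω'.1.1, k2 ω'.1.1, h ω'.1.1),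
          (F.a (k1 ω'.1.1) (x ω'.1.1), F.a (k1 ω'.1.1) (y ω'.1.1)))
      rw [main ω w, main ω' w']
      exact congrArg (fun t : (G × G) × (Fin n × Fin n × Fin n) =>
        (t.2, (F.a t.2.1 t.1.1, F.a t.2.1 t.1.2))) e)
    (fun ω ω' w w' e => by
      have main : ∀ ω, P3.p ω ≠ 0 →
          x ω.1.2 = F.a (k2 ω.1.1) (x ω.2.2) - F.b (k2 ω.1.1) (x ω.1.1) ∧
          y ω.1.2 = F.a (k2 ω.1.1) (y ω.2.2) - F.b (k2 ω.1.1) (x ω.1.1) ∧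
          x ω.2.1 = F.a (k2 ω.1.1) (x ω.1.1) - F.b (k2 ω.1.1) (x ω.2.2) ∧
          y ω.2.1 = F.a (k2 ω.1.1) (y ω.1.1) - F.b (k2 ω.1.1) (x ω.2.2) := by
        intro ω w
        obtain ⟨p1, p2, c1, c2, c3, c4, c5, c6, c7, c8⟩ := s3 ω w
        obtain ⟨q1, q2, d1, d2, d3, d4, d5, d6⟩ := s2 ω.1 p1
        obtain ⟨q3, q4, g1, g2, g3, g4, g5, g6⟩ := s2 ω.2 p2
        obtain ⟨m1, m2, m3, m4, m5, m6⟩ := sxx _ q1
        obtain ⟨n1, n2, n3, n4, n5, n6⟩ := sxx _ q2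
        obtain ⟨u1, u2, u3, u4, u5, u6⟩ := sxx _ q3
        obtain ⟨z1, z2, z3, z4, z5, z6⟩ := sxx _ q4
        -- all class variables are those of `ω.1.1`
        rw [← d4] at n1 n3 n5
        rw [← d5] at n2 n4 n6
        rw [← c6] at u1 u3 u5
        rw [← c7] at u2 u4 u6
        rw [← g4, ← c6] at z1 z3 z5
        rw [← g5, ← c7] at z2 z4 z6
        rw [← d4] at d1 d3
        rw [← d5] at d2
        rw [← g4, ← c6] at g1 g3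
        rw [← g5, ← c7] at g2
        rw [← c6] at c1 c3
        rw [← c7] at c2 c4 c5
        -- the labels `a2` of `y_r` and `y_rs`
        have a1 := F.sub _ _ m1
        have a3 := F.sub _ _ m3
        rw [m5] at a3
        have b1 := F.sub _ _ n1
        rw [← d1] at b1
        have b3 := F.sub _ _ n3
        rw [n5, ← d3] at b3
        have a2 := F.sub _ _ m2
        have a4 := F.sub _ _ m4
        rw [m6] at a4
        have b2 := F.sub _ _ n2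
        rw [← d2] at b2
        have b4 := F.sub _ _ n4
        rw [n6, ← d2] at b4
        have i1 := face a1 a3 b1 b3 a2 a4 b2 b4
        have a1' := F.sub _ _ u1
        have a3' := F.sub _ _ u3
        rw [u5] at a3'
        have b1' := F.sub _ _ z1
        rw [← g1] at b1'
        have b3' := F.sub _ _ z3
        rw [z5, ← g3] at b3'
        have a2' := F.sub _ _ u2
        have a4' := F.sub _ _ u4
        rw [u6] at a4'
        have b2' := F.sub _ _ z2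
        rw [← g2] at b2'
        have b4' := F.sub _ _ z4
        rw [z6, ← g2] at b4'
        have i2 := face a1' a3' b1' b3' a2' a4' b2' b4'
        refine ⟨?_, ?_, ?_, ?_⟩
        · rw [← c5]
          exact b2.symm
        · rw [i2, ← c4, ← c5, ← c2, ← i1]
          exact b4.symm
        · rw [c2, ← g2]
          exact a2'.symm
        · rw [c4, ← g2]
          exact a4'.symm
      have ea := congrArg (fun t : ((G × G) × (Fin n × Fin n × Fin n)) ×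
        ((G × G) × (Fin n × Fin n × Fin n)) => t) e
      simp only [Prod.mk.injEq] at ea
      obtain ⟨⟨⟨e1, e2⟩, e3, e4, e5⟩, ⟨e6, e7⟩, -⟩ := ea
      obtain ⟨r1, r2, r3, r4⟩ := main ω w
      obtain ⟨r1', r2', r3', r4'⟩ := main ω' w'
      change ((((x ω.1.1, y ω.1.1), (x ω.1.2, y ω.1.2)),
        ((x ω.2.1, y ω.2.1), (x ω.2.2, y ω.2.2))),
        ((F.a (k1 ω.1.1) (x ω.1.1), F.a (k2 ω.1.1) (x ω.1.1), F.a (k1 ω.1.1) (y ω.1.1),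
        F.a (k2 ω.1.1) (y ω.1.1)), (F.a (k2 ω.1.1) (x ω.1.2), (k1 ω.1.1, k2 ω.1.1, h ω.1.1)))) =
        ((((x ω'.1.1, y ω'.1.1), (x ω'.1.2, y ω'.1.2)),
        ((x ω'.2.1, y ω'.2.1), (x ω'.2.2, y ω'.2.2))),
        ((F.a (k1 ω'.1.1) (x ω'.1.1), F.a (k2 ω'.1.1) (x ω'.1.1), F.a (k1 ω'.1.1) (y ω'.1.1),
        F.a (k2 ω'.1.1) (y ω'.1.1)), (F.a (k2 ω'.1.1) (x ω'.1.2),
        (k1 ω'.1.1, k2 ω'.1.1, h ω'.1.1))))
      rw [r1, r2, r3, r4, r1', r2', r3', r4', e1, e2, e3, e4, e5, e6, e7])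
  -- the entropies of the corners
  have x1 : P3.H (fun ω => ((x ω.1.1, y ω.1.1), (k1 ω.1.1, k2 ω.1.1, h ω.1.1))) =
      P.H (fun ω => ((x ω, y ω), (k1 ω, k2 ω, h ω))) :=
    (tr3 _ (fun ω => ((x ω.1, y ω.1), (k1 ω.1, k2 ω.1, h ω.1)))).trans
      (tr1 _ (fun ω => ((x ω, y ω), (k1 ω, k2 ω, h ω))))
  have x2 : P3.H (fun ω => ((x ω.2.2, y ω.2.2), (k1 ω.2.2, k2 ω.2.2, h ω.2.2))) =
      P.H (fun ω => ((x ω, y ω), (k1 ω, k2 ω, h ω))) :=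
    (tr4 _ (fun ω => ((x ω.2, y ω.2), (k1 ω.2, k2 ω.2, h ω.2)))).trans
      (tr2 _ (fun ω => ((x ω, y ω), (k1 ω, k2 ω, h ω))))
  have x3 : P3.H (fun ω => ((k1 ω.1.1, k2 ω.1.1, h ω.1.1), (F.a (k1 ω.1.1) (x ω.1.1),
      F.a (k1 ω.1.1) (y ω.1.1)))) =
      P.H (fun ω => ((k1 ω, k2 ω, h ω), (F.a (k1 ω) (x ω), F.a (k1 ω) (y ω)))) :=
    (tr3 _ (fun ω => ((k1 ω.1, k2 ω.1, h ω.1), (F.a (k1 ω.1) (x ω.1),
      F.a (k1 ω.1) (y ω.1))))).trans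
      (tr1 _ (fun ω => ((k1 ω, k2 ω, h ω), (F.a (k1 ω) (x ω), F.a (k1 ω) (y ω)))))
  rw [x1, x2, x3] at w1
  linarith

end Pool.Agent.TF.H35
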