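import Pool.Agent.Helper35_TF.Kit

/-! Squad TF, row REC: the closure law. -/

set_option autoImplicit false

namespace Pool.Agent.TF.H35

section

variable {G : Type} [AddCommGroup G] [Fintype G] [DecidableEq G] {n : ℕ} {F : Fam G n} {l e : ℝ}
  {Ω : Type} [Fintype Ω] {P : Law Ω} {x : Ω → G} {c : Ω → Fin 3 → Fin n}

/-- the classes -/
theorem h_three (L : Lib) (hB : Base F l e) : P.H c ≤ 3 * l / 2 + 3 * e := by
  have h1 := hadd L (P := P) (a := fun ω => c ω 0) (b := fun ω => (c ω 1, c ω 2))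
    (j := c) (fun ω ω' _ _ e => by
      have e' : (c ω 0, (c ω 1, c ω 2)) = (c ω' 0, (c ω' 1, c ω' 2)) := e
      simp only [Prod.mk.injEq] at e'
      obtain ⟨e0, e1, e2⟩ := e'
      funext i
      fin_cases i
      · exact e0
      · exact e1
      · exact e2)
  have h2 := hadd L (P := P) (a := fun ω => c ω 1) (b := fun ω => c ω 2)
    (j := fun ω => (c ω 1, c ω 2)) (fun ω ω' _ _ e => e)
  have h3 := h_cls L (P := P) hB (fun ω => c ω 0)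
  have h4 := h_cls L (P := P) hB (fun ω => c ω 1)
  have h5 := h_cls L (P := P) hB (fun ω => c ω 2)
  linarith

theorem pair_of (L : Lib) (hB : Base F l e) (hH : 5 * l / 2 - e ≤ P.H (fun ω => (x ω, c ω)))
    (i j : Fin 3) (hij : i ≠ j) : 2 * l - 2 * e ≤ P.H (fun ω => (x ω, (c ω i, c ω j))) := by
  obtain ⟨m, hm⟩ : ∃ m : Fin 3, ∀ t : Fin 3, t = i ∨ t = j ∨ t = m := by
    revert i j
    decide
  have h1 := hadd L (P := P) (a := fun ω => (x ω, (c ω i, c ω j))) (b := fun ω => c ω m)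
    (j := fun ω => (x ω, c ω)) (fun ω ω' _ _ e => by
      have e' : ((x ω, (c ω i, c ω j)), c ω m) = ((x ω', (c ω' i, c ω' j)), c ω' m) := e
      simp only [Prod.mk.injEq] at e'
      obtain ⟨⟨e0, e1, e2⟩, e3⟩ := e'
      refine Prod.ext e0 ?_
      funext t
      rcases hm t with rfl | rfl | rfl
      · exact e1
      · exact e2
      · exact e3)
  have h3 := h_cls L (P := P) hB (fun ω => c ω m)
  linarith

theorem thin_of (L : Lib) (hB : Base F l e) (hs : ∀ ω, P.p ω ≠ 0 → ∀ i, x ω ∈ F.D (c ω i))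
    (hH : 5 * l / 2 - e ≤ P.H (fun ω => (x ω, c ω))) : Thin F l (2 * e) (5 * e) 3 P x c where
  base := base_mono hB (by have := hB.e0; linarith)
  f0 := by have := hB.e0; linarith
  supp := hs
  pair := pair_of L hB hH
  move := by
    intro i
    have h1 : P.H (fun ω => (F.b (c ω i) (x ω), (F.a (c ω i) (x ω), c ω))) =
        P.H (fun ω => (x ω, c ω)) := by
      refine hcongr L ?_ (fun ω ω' _ _ e => congrArg (fun t : G × (Fin 3 → Fin n) =>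
        (F.b (t.2 i) t.1, (F.a (t.2 i) t.1, t.2))) e)
      intro ω ω' w w' e
      have e' : (F.b (c ω i) (x ω), (F.a (c ω i) (x ω), c ω)) =
        (F.b (c ω' i) (x ω'), (F.a (c ω' i) (x ω'), c ω')) := e
      simp only [Prod.mk.injEq] at e'
      obtain ⟨e0, e1, e2⟩ := e'
      have k1 := F.sub _ _ (hs ω w i)
      have k2 := F.sub _ _ (hs ω' w' i)
      refine Prod.ext ?_ e2
      change x ω = x ω'
      rw [← k1, ← k2, e0, e1]
    have h2 := smod L (P := P) (a := fun ω => (F.lab true (c ω i) (x ω), c ω i)) (b := c)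
      (m := fun ω => c ω i) (j := fun ω => (F.a (c ω i) (x ω), c ω))
      (fun ω ω' _ _ e => congrArg Prod.snd e) (fun ω ω' _ _ e => congrArg (fun t => t i) e)
      (fun ω ω' _ _ e => congrArg (fun t : (G × Fin n) × (Fin 3 → Fin n) => (t.1.1, t.2)) e)
    have h3 := c_lab L hB true (fun ω => c ω i) x (fun ω w => hs ω w i)
    have h4 := h_three L (P := P) (c := c) hB
    unfold Law.C at h3 ⊢
    rw [h1]
    linarith

end

theorem rec_ (L : Lib) (hM : MulStmt) (hP : Pr2Stmt) : RecStmt := by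
  intro G _ _ _ n F l e Ω _ P x c hB hs hH
  have e0 := hB.e0
  have hT := thin_of L hB hs hH
  -- near independence of `a_h` and `b_h`
  have hI := hM G n F l (2 * e) (5 * e) 3 Ω P x c hT
    (fun i => if i = 2 then none else some false) 2 (by simp)
  -- the label variable
  have eqv : ∀ (A : Type) (f : Ω → A), P.H (fun ω => (f ω,
      (F.labs (fun i : Fin 3 => if i = 2 then none else some false) (c ω) (x ω), c ω))) =
      P.H (fun ω => (f ω, ((F.b (c ω 0) (x ω), F.b (c ω 1) (x ω)), c ω))) := by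
    intro A f
    refine hcongr L ?_ ?_
    · intro ω ω' _ _ e
      have e' : (f ω, (F.labs (fun i : Fin 3 => if i = 2 then none else some false) (c ω) (x ω), c ω))
        = (f ω', (F.labs (fun i : Fin 3 => if i = 2 then none else some false) (c ω') (x ω'), c ω')) := e
      simp only [Prod.mk.injEq] at e'
      obtain ⟨e1, e2, e3⟩ := e'
      have e4 := congrFun e2 0
      have e5 := congrFun e2 1
      simp [Fam.labs, Fam.lab] at e4 e5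
      simp only [Prod.mk.injEq]
      exact ⟨e1, ⟨e4, e5⟩, e3⟩
    · intro ω ω' _ _ e
      have e' : (f ω, ((F.b (c ω 0) (x ω), F.b (c ω 1) (x ω)), c ω)) =
        (f ω', ((F.b (c ω' 0) (x ω'), F.b (c ω' 1) (x ω')), c ω')) := e
      simp only [Prod.mk.injEq] at e'
      obtain ⟨e1, ⟨e2, e3⟩, e4⟩ := e'
      simp only [Prod.mk.injEq]
      refine ⟨e1, ?_, e4⟩
      funext i
      fin_cases i
      · simp [Fam.labs, Fam.lab, e2]
      · simp [Fam.labs, Fam.lab, e3]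
      · simp [Fam.labs]
  have eqv0 : P.H (fun ω =>
      (F.labs (fun i : Fin 3 => if i = 2 then none else some false) (c ω) (x ω), c ω)) =
      P.H (fun ω => ((F.b (c ω 0) (x ω), F.b (c ω 1) (x ω)), c ω)) := by
    have h1 := eqv Unit (fun _ => ())
    have h2 : ∀ (B : Type) (g : Ω → B), P.H (fun ω => ((), g ω)) = P.H g := fun B g =>
      hcongr L (fun ω ω' _ _ e => congrArg Prod.snd e) (fun ω ω' _ _ e => Prod.ext rfl e)
    rw [h2, h2] at h1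
    exact h1
  unfold Law.C at hI
  rw [eqv, eqv, eqv, eqv0] at hI
  -- first gluing
  obtain ⟨P1, f11, f12, f13, f14⟩ := dbl L P
    (fun ω => (F.b (c ω 2) (x ω), ((F.b (c ω 0) (x ω), F.b (c ω 1) (x ω)), c ω)))
  have s1 : ∀ ω, P1.p ω ≠ 0 → P.p ω.1 ≠ 0 ∧ P.p ω.2 ≠ 0 ∧
      F.b (c ω.1 2) (x ω.1) = F.b (c ω.2 2) (x ω.2) ∧
      F.b (c ω.1 0) (x ω.1) = F.b (c ω.2 0) (x ω.2) ∧
      F.b (c ω.1 1) (x ω.1) = F.b (c ω.2 1) (x ω.2) ∧ c ω.1 = c ω.2 := by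
    intro ω w
    obtain ⟨a, b, h⟩ := f13 ω w
    simp only [Prod.mk.injEq] at h
    obtain ⟨h1, ⟨h2, h3⟩, h4⟩ := h
    exact ⟨a, b, h1, h2, h3, h4⟩
  -- second gluing
  obtain ⟨P2, f21, f22, f23, f24⟩ := dbl L P1
    (fun ω => (F.a (c ω.1 2) (x ω.1), (F.a (c ω.2 2) (x ω.2),
      ((F.b (c ω.1 0) (x ω.1), F.b (c ω.1 1) (x ω.1)), c ω.1))))
  have s2 : ∀ ω, P2.p ω ≠ 0 → P1.p ω.1 ≠ 0 ∧ P1.p ω.2 ≠ 0 ∧
      F.a (c ω.1.1 2) (x ω.1.1) = F.a (c ω.2.1 2) (x ω.2.1) ∧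
      F.a (c ω.1.2 2) (x ω.1.2) = F.a (c ω.2.2 2) (x ω.2.2) ∧
      F.b (c ω.1.1 0) (x ω.1.1) = F.b (c ω.2.1 0) (x ω.2.1) ∧
      F.b (c ω.1.1 1) (x ω.1.1) = F.b (c ω.2.1 1) (x ω.2.1) ∧ c ω.1.1 = c ω.2.1 := by
    intro ω w
    obtain ⟨a, b, h⟩ := f23 ω w
    simp only [Prod.mk.injEq] at h
    obtain ⟨h1, h2, ⟨h3, h4⟩, h5⟩ := h
    exact ⟨a, b, h1, h2, h3, h4, h5⟩
  -- entropies
  have tr1 : ∀ (A : Type) (f : Ω → A), P1.H (fun ω => f ω.1) = P.H f := fun A f =>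
    L.sam.2.1 _ _ _ _ _ _ _ (L.sam.1 _ _ _ _ _ _ _ _ f f11)
  have tr2 : ∀ (A : Type) (f : Ω → A), P1.H (fun ω => f ω.2) = P.H f := fun A f =>
    L.sam.2.1 _ _ _ _ _ _ _ (L.sam.1 _ _ _ _ _ _ _ _ f f12)
  have g1 := f14 G x
  have g2 := f24 (G × G) (fun ω => (x ω.1, x ω.2))
  have d1 : P.H (fun ω => (x ω, (F.b (c ω 2) (x ω), ((F.b (c ω 0) (x ω), F.b (c ω 1) (x ω)), c ω))))
      = P.H (fun ω => (x ω, c ω)) :=
    hcongr L (fun ω ω' _ _ e => congrArg (fun t : G × (G × ((G × G) × (Fin 3 → Fin n))) =>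
      (t.1, t.2.2.2)) e) (fun ω ω' _ _ e => congrArg (fun t : G × (Fin 3 → Fin n) =>
      (t.1, (F.b (t.2 2) t.1, ((F.b (t.2 0) t.1, F.b (t.2 1) t.1), t.2)))) e)
  have d1' : P.H (fun ω => (x ω, ((F.b (c ω 0) (x ω), F.b (c ω 1) (x ω)), c ω)))
      = P.H (fun ω => (x ω, c ω)) :=
    hcongr L (fun ω ω' _ _ e => congrArg (fun t : G × ((G × G) × (Fin 3 → Fin n)) =>
      (t.1, t.2.2)) e) (fun ω ω' _ _ e => congrArg (fun t : G × (Fin 3 → Fin n) =>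
      (t.1, ((F.b (t.2 0) t.1, F.b (t.2 1) t.1), t.2))) e)
  have d2 : P1.H (fun ω => ((x ω.1, x ω.2), (F.b (c ω.1 2) (x ω.1),
      ((F.b (c ω.1 0) (x ω.1), F.b (c ω.1 1) (x ω.1)), c ω.1)))) ≤
      P1.H (fun ω => ((x ω.1, x ω.2), (F.a (c ω.1 2) (x ω.1), (F.a (c ω.2 2) (x ω.2),
      ((F.b (c ω.1 0) (x ω.1), F.b (c ω.1 1) (x ω.1)), c ω.1))))) :=
    hle L (fun ω ω' _ _ e => congrArg (fun t : (G × G) × (G × (G × ((G × G) × (Fin 3 → Fin n)))) =>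
      (t.1, (F.b (t.2.2.2.2 2) t.1.1, ((F.b (t.2.2.2.2 0) t.1.1, F.b (t.2.2.2.2 1) t.1.1),
        t.2.2.2.2)))) e)
  -- the label entropy of the second gluing
  have v2 : P1.H (fun ω => (F.a (c ω.1 2) (x ω.1), (F.a (c ω.2 2) (x ω.2),
      ((F.b (c ω.1 0) (x ω.1), F.b (c ω.1 1) (x ω.1)), c ω.1)))) +
      P.H (fun ω => ((F.b (c ω 0) (x ω), F.b (c ω 1) (x ω)), c ω)) ≤
      2 * P.H (fun ω => (F.a (c ω 2) (x ω), ((F.b (c ω 0) (x ω), F.b (c ω 1) (x ω)), c ω))) := by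
    have key : ∀ ω, P1.p ω ≠ 0 → ((F.b (c ω.2 0) (x ω.2), F.b (c ω.2 1) (x ω.2)), c ω.2) =
        ((F.b (c ω.1 0) (x ω.1), F.b (c ω.1 1) (x ω.1)), c ω.1) := by
      intro ω w
      obtain ⟨-, -, -, h2, h3, h4⟩ := s1 ω w
      simp only [Prod.mk.injEq]
      exact ⟨⟨h2.symm, h3.symm⟩, h4.symm⟩
    have h1 := smod L (P := P1)
      (a := fun ω => (F.a (c ω.1 2) (x ω.1), ((F.b (c ω.1 0) (x ω.1), F.b (c ω.1 1) (x ω.1)), c ω.1)))
      (b := fun ω => (F.a (c ω.2 2) (x ω.2), ((F.b (c ω.2 0) (x ω.2), F.b (c ω.2 1) (x ω.2)), c ω.2)))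
      (m := fun ω => ((F.b (c ω.1 0) (x ω.1), F.b (c ω.1 1) (x ω.1)), c ω.1))
      (j := fun ω => (F.a (c ω.1 2) (x ω.1), (F.a (c ω.2 2) (x ω.2),
      ((F.b (c ω.1 0) (x ω.1), F.b (c ω.1 1) (x ω.1)), c ω.1))))
      (fun ω ω' _ _ e => congrArg Prod.snd e)
      (fun ω ω' w w' e => by
        have e1 := congrArg Prod.snd e
        change ((F.b (c ω.2 0) (x ω.2), F.b (c ω.2 1) (x ω.2)), c ω.2) =
          ((F.b (c ω'.2 0) (x ω'.2), F.b (c ω'.2 1) (x ω'.2)), c ω'.2) at e1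
        rw [key ω w, key ω' w'] at e1
        exact e1)
      (fun ω ω' _ _ e => congrArg (fun t : (G × ((G × G) × (Fin 3 → Fin n))) ×
        (G × ((G × G) × (Fin 3 → Fin n))) => (t.1.1, (t.2.1, t.1.2))) e)
    have t1 := tr1 _ (fun ω => (F.a (c ω 2) (x ω), ((F.b (c ω 0) (x ω), F.b (c ω 1) (x ω)), c ω)))
    have t2 := tr2 _ (fun ω => (F.a (c ω 2) (x ω), ((F.b (c ω 0) (x ω), F.b (c ω 1) (x ω)), c ω)))
    have t3 := tr1 _ (fun ω => ((F.b (c ω 0) (x ω), F.b (c ω 1) (x ω)), c ω))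
    linarith
  -- the entropy of the two labels
  have hb : P.H (fun ω => ((F.b (c ω 0) (x ω), F.b (c ω 1) (x ω)), c ω)) ≤ 9 * l / 4 + 43 * e := by
    have h1 := hP G n F l (2 * e) Ω P x (fun ω => c ω 0) (fun ω => c ω 1)
      (base_mono hB (by linarith)) (fun ω w => ⟨hs ω w 0, hs ω w 1⟩)
      (pair_of L hB hH 0 1 (by decide))
    have h2 := h1.pair false false
    unfold Law.C at h2
    simp only [Fam.lab, Bool.false_eq_true, if_false] at h2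
    have h3 := smod L (P := P)
      (a := fun ω => ((F.b (c ω 0) (x ω), F.b (c ω 1) (x ω)), (c ω 0, c ω 1)))
      (b := c) (m := fun ω => (c ω 0, c ω 1))
      (j := fun ω => ((F.b (c ω 0) (x ω), F.b (c ω 1) (x ω)), c ω))
      (fun ω ω' _ _ e => congrArg Prod.snd e)
      (fun ω ω' _ _ e => congrArg (fun t : Fin 3 → Fin n => (t 0, t 1)) e)
      (fun ω ω' _ _ e => congrArg (fun t : ((G × G) × (Fin n × Fin n)) × (Fin 3 → Fin n) =>
        (t.1.1, t.2)) e)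
    have h4 := h_three L (P := P) (c := c) hB
    linarith
  -- the points `x = x ω.1.1`, `z = x ω.1.2`, `z' = x ω.2.1`, `y = x ω.2.2`
  have pts : ∀ ω, P2.p ω ≠ 0 →
      c ω.1.2 = c ω.1.1 ∧ c ω.2.1 = c ω.1.1 ∧ c ω.2.2 = c ω.1.1 ∧
      (∀ i, x ω.1.1 ∈ F.D (c ω.1.1 i) ∧ x ω.1.2 ∈ F.D (c ω.1.1 i) ∧ x ω.2.1 ∈ F.D (c ω.1.1 i) ∧
        x ω.2.2 ∈ F.D (c ω.1.1 i)) ∧
      F.a (c ω.1.1 2) (x ω.2.2) - F.b (c ω.1.1 2) (x ω.1.1) = x ω.1.2 ∧
      F.a (c ω.1.1 2) (x ω.1.1) - F.b (c ω.1.1 2) (x ω.2.2) = x ω.2.1 ∧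
      F.b (c ω.1.1 0) (x ω.1.2) = F.b (c ω.1.1 0) (x ω.1.1) ∧
      F.b (c ω.1.1 0) (x ω.2.1) = F.b (c ω.1.1 0) (x ω.1.1) ∧
      F.b (c ω.1.1 0) (x ω.2.2) = F.b (c ω.1.1 0) (x ω.1.1) ∧
      F.b (c ω.1.1 1) (x ω.1.2) = F.b (c ω.1.1 1) (x ω.1.1) ∧
      F.b (c ω.1.1 1) (x ω.2.1) = F.b (c ω.1.1 1) (x ω.1.1) ∧
      F.b (c ω.1.1 1) (x ω.2.2) = F.b (c ω.1.1 1) (x ω.1.1) := by
    intro ω w
    obtain ⟨p1, p2, h1, h2, h3, h4, h5⟩ := s2 ω w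
    obtain ⟨q1, q2, i1, i2, i3, i4⟩ := s1 _ p1
    obtain ⟨q3, q4, j1, j2, j3, j4⟩ := s1 _ p2
    have c1 : c ω.1.2 = c ω.1.1 := i4.symm
    have c2 : c ω.2.1 = c ω.1.1 := h5.symm
    have c3 : c ω.2.2 = c ω.1.1 := j4.symm.trans c2
    have m1 := hs _ q1
    have m2 := hs _ q2
    have m3 := hs _ q3
    have m4 := hs _ q4
    rw [c1] at m2
    rw [c2] at m3
    rw [c3] at m4
    rw [c2] at h1 h3 h4
    rw [c1, c3] at h2
    rw [c1] at i1 i2 i3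
    rw [c2, c3] at j1 j2 j3
    refine ⟨c1, c2, c3, fun i => ⟨m1 i, m2 i, m3 i, m4 i⟩, ?_, ?_, i2.symm, h3.symm,
      (h3.trans j2).symm, i3.symm, h4.symm, (h4.trans j3).symm⟩
    · rw [← h2, i1]
      exact F.sub _ _ (m2 2)
    · rw [h1, ← j1]
      exact F.sub _ _ (m3 2)
  refine ⟨(Ω × Ω) × (Ω × Ω), inferInstance, P2, fun ω => x ω.1.1, fun ω => x ω.2.2,
    fun ω => c ω.1.1 2, fun ω => c ω.1.1 0, fun ω => c ω.1.1 1, ?_, ?_⟩
  · intro ω w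
    obtain ⟨c1, c2, c3, m, r1, r2, a1, a2, a3, b1, b2, b3⟩ := pts ω w
    refine ⟨⟨(m 2).1, (m 2).2.2.2, (m 0).1, (m 0).2.2.2, ?_, ?_, a3, ?_, ?_⟩,
      ⟨(m 2).1, (m 2).2.2.2, (m 1).1, (m 1).2.2.2, ?_, ?_, b3, ?_, ?_⟩⟩
    · rw [r1]; exact (m 0).2.1
    · rw [r2]; exact (m 0).2.2.1
    · rw [r1]; exact a1
    · rw [r2]; exact a2
    · rw [r1]; exact (m 1).2.1
    · rw [r2]; exact (m 1).2.2.1
    · rw [r1]; exact b1
    · rw [r2]; exact b2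
  · have hfin : P2.H (fun ω => (((x ω.1.1, x ω.1.2), (x ω.2.1, x ω.2.2)),
        (F.a (c ω.1.1 2) (x ω.1.1), (F.a (c ω.1.2 2) (x ω.1.2),
        ((F.b (c ω.1.1 0) (x ω.1.1), F.b (c ω.1.1 1) (x ω.1.1)), c ω.1.1))))) ≤
        P2.H (fun ω => ((x ω.1.1, x ω.2.2, c ω.1.1 2), (c ω.1.1 0, c ω.1.1 1))) := by
      refine hle L ?_
      intro ω ω' w w' e
      have e' : ((x ω.1.1, x ω.2.2, c ω.1.1 2), (c ω.1.1 0, c ω.1.1 1)) =
        ((x ω'.1.1, x ω'.2.2, c ω'.1.1 2), (c ω'.1.1 0, c ω'.1.1 1)) := e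
      simp only [Prod.mk.injEq] at e'
      obtain ⟨⟨e1, e2, e3⟩, e4, e5⟩ := e'
      have ec : c ω.1.1 = c ω'.1.1 := by
        funext i
        fin_cases i
        · exact e4
        · exact e5
        · exact e3
      obtain ⟨c1, -, -, -, r1, r2, -⟩ := pts ω w
      obtain ⟨c1', -, -, -, r1', r2', -⟩ := pts ω' w'
      have z1 : x ω.1.2 = x ω'.1.2 := by rw [← r1, ← r1', e1, e2, ec]
      have z2 : x ω.2.1 = x ω'.2.1 := by rw [← r2, ← r2', e1, e2, ec]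
      change (((x ω.1.1, x ω.1.2), (x ω.2.1, x ω.2.2)),
        (F.a (c ω.1.1 2) (x ω.1.1), (F.a (c ω.1.2 2) (x ω.1.2),
        ((F.b (c ω.1.1 0) (x ω.1.1), F.b (c ω.1.1 1) (x ω.1.1)), c ω.1.1)))) =
        (((x ω'.1.1, x ω'.1.2), (x ω'.2.1, x ω'.2.2)),
        (F.a (c ω'.1.1 2) (x ω'.1.1), (F.a (c ω'.1.2 2) (x ω'.1.2),
        ((F.b (c ω'.1.1 0) (x ω'.1.1), F.b (c ω'.1.1 1) (x ω'.1.1)), c ω'.1.1))))
      rw [c1, c1', e1, e2, z1, z2, ec]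
    refine le_trans ?_ hfin
    have g1' := tr1 _ (fun ω => (F.b (c ω 2) (x ω), ((F.b (c ω 0) (x ω), F.b (c ω 1) (x ω)), c ω)))
    rw [d1] at g1
    have h3 : ((3 : ℕ) : ℝ) = 3 := by norm_num
    rw [d1', h3] at hI
    linarith

end Pool.Agent.TF.H35
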