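import Pool.Agent.TF.Stmts

/-! Squad TF: a kit of entropy rules deduced from the library `Lib`. -/

set_option autoImplicit false

namespace Pool.Agent.TF.H35

section kit

variable {Ω : Type} [Fintype Ω] {P : Law Ω} {A B J M S T : Type}

theorem hle (L : Lib) {X : Ω → S} {Y : Ω → T} (h : P.Det X Y) : P.H Y ≤ P.H X :=
  L.mon.1 Ω S T P X Y h

theorem hnn (L : Lib) (X : Ω → S) : 0 ≤ P.H X := L.mon.2 Ω S P X

theorem hcongr (L : Lib) {X : Ω → S} {Y : Ω → T} (h : P.Det X Y) (h' : P.Det Y X) :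
    P.H X = P.H Y := le_antisymm (hle L h') (hle L h)

/-- submodularity in the form `H(j) + H(m) ≤ H(a) + H(b)`, where `a` and `b` determine `m` and `(a,b)`
determines `j` -/
theorem smod (L : Lib) {a : Ω → A} {b : Ω → B} {j : Ω → J} {m : Ω → M} (h1 : P.Det a m)
    (h2 : P.Det b m) (h3 : P.Det (fun ω => (a ω, b ω)) j) :
    P.H j + P.H m ≤ P.H a + P.H b := by
  have k1 := L.sub Ω A B M P a b m
  unfold Law.C at k1
  have k2 : P.H (fun ω => (b ω, m ω)) = P.H b := by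
    refine hcongr L (fun ω ω' _ _ e => congrArg Prod.fst e) ?_
    intro ω ω' h h' e
    exact Prod.ext e (h2 ω ω' h h' e)
  have k3 : P.H (fun ω => (a ω, m ω)) = P.H a := by
    refine hcongr L (fun ω ω' _ _ e => congrArg Prod.fst e) ?_
    intro ω ω' h h' e
    exact Prod.ext e (h1 ω ω' h h' e)
  have k4 : P.H j ≤ P.H (fun ω => (a ω, (b ω, m ω))) := by
    refine hle L ?_
    intro ω ω' h h' e
    exact h3 ω ω' h h' (congrArg (fun t : A × B × M => (t.1, t.2.1)) e)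
  linarith

/-- subadditivity -/
theorem hadd (L : Lib) {a : Ω → A} {b : Ω → B} {j : Ω → J}
    (h3 : P.Det (fun ω => (a ω, b ω)) j) : P.H j ≤ P.H a + P.H b := by
  have h := smod L (m := fun _ => ()) (P := P) (a := a) (b := b) (j := j)
    (fun _ _ _ _ _ => rfl) (fun _ _ _ _ _ => rfl) h3
  have h0 := hnn L (P := P) (fun _ : Ω => ())
  linarith

theorem E_const (c : ℝ) : P.E (fun _ => c) = c := by
  unfold Law.E
  rw [← Finset.sum_mul, P.one, one_mul]

theorem E_le {f : Ω → ℝ} {c : ℝ} (h : ∀ ω, P.p ω ≠ 0 → f ω ≤ c) : P.E f ≤ c := by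
  rw [← E_const (P := P) c]
  unfold Law.E
  refine Finset.sum_le_sum fun ω _ => ?_
  by_cases h0 : P.p ω = 0
  · rw [h0, zero_mul, zero_mul]
  · exact mul_le_mul_of_nonneg_left (h ω h0) (P.nn ω)

/-- the entropy of a variable with values in `T` -/
theorem h_le_log (L : Lib) {X : Ω → S} (T : Finset S) (h : ∀ ω, P.p ω ≠ 0 → X ω ∈ T) :
    P.H X ≤ Real.log T.card := by
  have h1 := L.gib Ω S P X T (fun _ => 1) (fun _ _ => zero_le_one)
    (fun ω hω => ⟨h ω hω, one_pos⟩)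
  have h2 : P.E (fun ω => Real.log ((fun _ : S => (1 : ℝ)) (X ω))) = 0 := by
    simp only [Real.log_one]
    exact E_const 0
  rw [h2, add_zero, Finset.sum_const, nsmul_eq_mul, mul_one] at h1
  exact h1

/-- the conditional entropy of a variable with values in `T u` given `Y = u` -/
theorem c_le_log (L : Lib) {X : Ω → S} {Y : Ω → A} (T : A → Finset S) {c : ℝ}
    (h : ∀ ω, P.p ω ≠ 0 → X ω ∈ T (Y ω)) (hc : ∀ u, Real.log (T u).card ≤ c) :
    P.C X Y ≤ c := by
  have h1 := L.gic Ω S A P X Y T (fun _ _ => 1) (fun _ _ _ => zero_le_one)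
    (fun ω hω => ⟨h ω hω, one_pos⟩)
  have h2 : P.E (fun ω => Real.log ((fun _ _ => (1 : ℝ) : A → S → ℝ) (Y ω) (X ω))) = 0 := by
    simp only [Real.log_one]
    exact E_const 0
  rw [h2, add_zero] at h1
  refine h1.trans (E_le fun ω _ => ?_)
  rw [Finset.sum_const, nsmul_eq_mul, mul_one]
  exact hc (Y ω)

/-- doubling: two conditionally independent copies over `X` -/
theorem dbl (L : Lib) (P : Law Ω) (X : Ω → S) : ∃ P' : Law (Ω × Ω),
    SameLaw P' (fun ω => ω.1) P (fun ω => ω) ∧ SameLaw P' (fun ω => ω.2) P (fun ω => ω) ∧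
    (∀ ω, P'.p ω ≠ 0 → P.p ω.1 ≠ 0 ∧ P.p ω.2 ≠ 0 ∧ X ω.1 = X ω.2) ∧
    ∀ (A : Type) (f : Ω → A), P'.H (fun ω => ((f ω.1, f ω.2), X ω.1)) =
      2 * P.H (fun ω => (f ω, X ω)) - P.H X := by
  obtain ⟨P', h1, h2, h3, -, h5⟩ := L.gl2 Ω Ω S P P X X (fun _ => rfl)
  refine ⟨P', h1, h2, h3, fun A f => ?_⟩
  have h6 := h5 A A f f
  unfold Law.C at h6
  have h7 : P'.H (fun ω => X ω.1) = P.H X :=
    L.sam.2.1 _ _ _ _ _ _ _ (L.sam.1 _ _ _ _ _ _ _ _ X h1)
  rw [h7] at h6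
  linarith

end kit

section base

variable {G : Type} [AddCommGroup G] [Fintype G] [DecidableEq G] {n : ℕ} {F : Fam G n} {l e : ℝ}
  {Ω : Type} [Fintype Ω] {P : Law Ω}

theorem base_mono {e' : ℝ} (h : Base F l e) (he : e ≤ e') : Base F l e' where
  e0 := h.e0.trans he
  hN := h.hN
  hn := h.hn.trans (by linarith)
  hlab := fun σ k => (h.hlab σ k).trans (by linarith)
  hW := h.hW

/-- `H(k) ≤ l/2 + e` -/
theorem h_cls (L : Lib) (h : Base F l e) (k : Ω → Fin n) : P.H k ≤ l / 2 + e := by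
  have h1 := h_le_log L (P := P) (X := k) Finset.univ (fun _ _ => Finset.mem_univ _)
  rw [Finset.card_univ, Fintype.card_fin] at h1
  exact h1.trans h.hn

/-- `H(x) ≤ l` -/
theorem h_pt (L : Lib) (h : Base F l e) (x : Ω → G) : P.H x ≤ l := by
  have h1 := h_le_log L (P := P) (X := x) Finset.univ (fun _ _ => Finset.mem_univ _)
  rw [Finset.card_univ, h.hN] at h1
  exact h1

/-- `H(label | k) ≤ l/2 + e` -/
theorem c_lab (L : Lib) (h : Base F l e) (σ : Bool) (k : Ω → Fin n) (x : Ω → G)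
    (hx : ∀ ω, P.p ω ≠ 0 → x ω ∈ F.D (k ω)) :
    P.C (fun ω => F.lab σ (k ω) (x ω)) k ≤ l / 2 + e :=
  c_le_log L (fun u => (F.D u).image (F.lab σ u))
    (fun ω hω => Finset.mem_image_of_mem _ (hx ω hω)) (fun u => h.hlab σ u)

end base

end Pool.Agent.TF.H35
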